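import Pool.Agent.PV57.Simple

/-!
# Powerful values are rare: a power saving when some simple root has degree at most four
-/

namespace Pool.Agent.Results.MP_c4b31a_nt.PowerSaving

open Polynomial

/-- If `P` has a simple complex root of degree at most `4` over `ℚ`, then the number of integers
`n` with `|n| ≤ N` and `P(n)` powerful (or `0`) is at most `C N ^ (23/24)` for all `N ≥ 1`. -/
theorem result (P : ℤ[X])
    (hP : ∃ α : ℂ, (P.map (Int.castRingHom ℂ)).rootMultiplicity α = 1 ∧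
      (minpoly ℚ α).natDegree ≤ 4) :
    ∃ C : ℝ, ∀ N : ℕ, 1 ≤ N →
      (({n : ℤ | |n| ≤ N ∧ ∀ p : ℕ, p.Prime → (p : ℤ) ∣ P.eval n →
        (p : ℤ) ^ 2 ∣ P.eval n}).ncard : ℝ) ≤ C * (N : ℝ) ^ (23 / 24 : ℝ) := by
  obtain ⟨α, hα, hdeg⟩ := hP
  obtain ⟨C, -, h⟩ := Pool.PV57.main_count P α hα hdeg
  exact ⟨C, h⟩

end Pool.Agent.Results.MP_c4b31a_nt.PowerSaving
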